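import Mathlib
import Pool.Agent.W2helper33.NC.Fin

/-!
# Banach spaces on which every compact operator is nuclear

Let `X` be a real or complex Banach space on which every compact operator is nuclear. We prove:

(1) a trace inequality: `|∑ g_b (T z_b)| ≤ C ‖∑ g_b ⊗ z_b‖ ‖T‖` for all compact operators `T` and all
finite families `g_b` in the dual space and `z_b` in `X` (the left side is the trace of `S T` for the
finite rank operator `S = ∑ g_b ⊗ z_b`);

(2) the rank of every projection `P` on `X` of finite rank is at most `C ‖P‖ ^ 2`; since all subspaces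
of dimension `n` of Banach spaces are ranges of projections of norm at most the square root of `n`
(Kadec and Snobar) this is the best possible order, so that all subspaces of `X` of finite dimension
are as badly complemented as possible;

(3) no infinite-dimensional complemented subspace `Y` of `X` (`J : Y → X`, `Q : X → Y`, `Q J = 1`) has
the approximation property. In particular neither `X`, if it is infinite-dimensional, nor an
infinite-dimensional complemented subspace of `X` has a Schauder basis.

Proof. If `T = ∑ f_j ⊗ y_j` is nuclear then `∑ g_b (T z_b) = ∑ f_j (S y_j)`, so for fixed compact `T` the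
left side of (1) is bounded for `‖S‖ ≤ 1`, and (1) follows from the theorem of Banach and Steinhaus in the
Banach space of the compact operators. For (2) take `S = T = P`. For (3) it is sufficient to take
`Y = X`. By the open mapping theorem every compact operator `T` has a representation
`∑ c_i f_i ⊗ y_i` with `f_i`, `y_i` in the unit balls and `∑ |c_i| ≤ C ‖T‖`. Take the vectors
`u_1, …, u_N` of the lemma of Dvoretzky and Rogers and `T = ∑ f_k ⊗ u_k` with norming functionals `f_k`;
the norm of `T` is at most the square root of `N` and the trace is at least `N / 3`. If `X` has the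
approximation property then there is an operator `S` of finite rank which is close to the identity
on the vectors `u_k` and on the vectors `y_i` (in the sense that `∑ |c_i| ‖S y_i - y_i‖` is small), and
the trace of `T` is at most `∑ |c_i|` plus a small error, a contradiction for large `N`.
-/

set_option autoImplicit false

namespace Pool.Agent.Results.MP_d58ff5_an.TraceInequality

/-- `T` is nuclear: `T x = ∑ f_n(x) y_n` with `∑ ‖f_n‖ ‖y_n‖ < ∞`. -/
def IsNuclear {𝕜 : Type} [RCLike 𝕜] {X : Type} [NormedAddCommGroup X] [NormedSpace 𝕜 X]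
    (T : X →L[𝕜] X) : Prop :=
  ∃ (f : ℕ → (X →L[𝕜] 𝕜)) (y : ℕ → X),
    Summable (fun n => ‖f n‖ * ‖y n‖) ∧ ∀ x : X, HasSum (fun n => (f n x) • y n) (T x)

/-- The approximation property: the identity is, on every compact set, uniformly approximated by
bounded operators of finite rank. -/
def AP (𝕜 : Type) [RCLike 𝕜] (X : Type) [NormedAddCommGroup X] [NormedSpace 𝕜 X] : Prop :=
  ∀ K : Set X, IsCompact K → ∀ ε : ℝ, 0 < ε → ∃ S : X →L[𝕜] X,
    FiniteDimensional 𝕜 (LinearMap.range (S : X →ₗ[𝕜] X)) ∧ ∀ x ∈ K, ‖S x - x‖ ≤ ε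

theorem result (𝕜 : Type) [RCLike 𝕜] (X : Type) [NormedAddCommGroup X] [NormedSpace 𝕜 X]
    [CompleteSpace X] (h : ∀ T : X →L[𝕜] X, IsCompactOperator T → IsNuclear T) :
    (∃ C : ℝ, 0 < C ∧ ∀ (n : ℕ) (g : Fin n → X →L[𝕜] 𝕜) (z : Fin n → X) (T : X →L[𝕜] X),
      IsCompactOperator T →
        ‖∑ b, g b (T (z b))‖ ≤ C * ‖∑ b, (g b).smulRight (z b)‖ * ‖T‖) ∧
    (∃ C : ℝ, 0 < C ∧ ∀ P : X →L[𝕜] X, (∀ x, P (P x) = P x) →
      FiniteDimensional 𝕜 (LinearMap.range (P : X →ₗ[𝕜] X)) →
      (Module.finrank 𝕜 (LinearMap.range (P : X →ₗ[𝕜] X)) : ℝ) ≤ C * ‖P‖ ^ 2) ∧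
    ∀ (Y : Type) [NormedAddCommGroup Y] [NormedSpace 𝕜 Y] [CompleteSpace Y] (J : Y →L[𝕜] X)
      (Q : X →L[𝕜] Y), (∀ y, Q (J y) = y) → ¬ FiniteDimensional 𝕜 Y → ¬ AP 𝕜 Y :=
  ⟨Pool.Agent.W2helper33.NC.trace_bound h, Pool.Agent.W2helper33.NC.projections h,
    fun _ _ _ _ J Q hQ hY => Pool.Agent.W2helper33.NC.not_ap hY
      (Pool.Agent.W2helper33.NC.complemented h J Q hQ)⟩

end Pool.Agent.Results.MP_d58ff5_an.TraceInequality
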